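import Pool.Agent.H32.S36.Targets

set_option autoImplicit false

open Complex Polynomial

namespace Pool.Agent.H32.S36

theorem TRI_mul_low (a b : LaurentSeries ℤ) (A B : ℤ) (ha : ∀ n : ℤ, n < A → a.coeff n = 0)
    (hb : ∀ n : ℤ, n < B → b.coeff n = 0) :
    (∀ n : ℤ, n < A + B → (a * b).coeff n = 0) ∧
      (a * b).coeff (A + B) = a.coeff A * b.coeff B := by
  constructor
  · intro n hn
    rw [HahnSeries.coeff_mul]
    apply Finset.sum_eq_zero
    intro ij hij
    simp only [HahnSeries.mem_support, Finset.mem_antidiagonal] at hij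
    exfalso
    obtain ⟨h1, h2, h3⟩ := hij
    have h4 : A ≤ ij.1 := by
      by_contra hc
      exact h1 (ha _ (by omega))
    have h5 : B ≤ ij.2 := by
      by_contra hc
      exact h2 (hb _ (by omega))
    omega
  · rw [HahnSeries.coeff_mul]
    rw [Finset.sum_eq_single (A, B)]
    · intro ij hij hne
      simp only [HahnSeries.mem_support, Finset.mem_antidiagonal] at hij
      exfalso
      obtain ⟨h1, h2, h3⟩ := hij
      have h4 : A ≤ ij.1 := by
        by_contra hc
        exact h1 (ha _ (by omega))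
      have h5 : B ≤ ij.2 := by
        by_contra hc
        exact h2 (hb _ (by omega))
      exact hne (Prod.ext (by omega) (by omega))
    · intro h
      simp only [HahnSeries.mem_support, Finset.mem_antidiagonal, not_and] at h
      by_cases h1 : a.coeff A = 0
      · rw [h1, zero_mul]
      · by_cases h2 : b.coeff B = 0
        · rw [h2, mul_zero]
        · exact absurd trivial (h h1 h2)

theorem TRI_pow_low (x g : LaurentSeries ℤ) (c : ℤ) (hx : ∀ n : ℤ, n < -1 → x.coeff n = 0)
    (hx1 : x.coeff (-1) = 1) (hg : ∀ n : ℤ, n < c → g.coeff n = 0) (hg1 : g.coeff c = 1)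
    (k : ℕ) : (∀ n : ℤ, n < c - k → (x ^ k * g).coeff n = 0) ∧ (x ^ k * g).coeff (c - k) = 1 := by
  induction k with
  | zero => simpa using ⟨hg, hg1⟩
  | succ k ih =>
    have h := TRI_mul_low x (x ^ k * g) (-1) (c - k) hx ih.1
    rw [hx1, ih.2, ← mul_assoc, ← pow_succ'] at h
    have e : (-1 : ℤ) + (c - k) = c - ((k + 1 : ℕ) : ℤ) := by push_cast; ring
    rw [e] at h
    exact ⟨h.1, by rw [h.2, one_mul]⟩

theorem TRI_coeff (x g : LaurentSeries ℤ) (Q : Polynomial ℤ) (n : ℤ) :
    (aeval x Q * g).coeff n = ∑ j ∈ Finset.range (Q.natDegree + 1),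
      Q.coeff j * (x ^ j * g).coeff n := by
  rw [aeval_eq_sum_range, Finset.sum_mul, HahnSeries.coeff_sum]
  refine Finset.sum_congr rfl fun j _ => ?_
  rw [Algebra.smul_def, eq_intCast, mul_assoc, intCast_mul_coeff, Int.cast_id]

theorem TRI_dvd (x g : LaurentSeries ℤ) (c : ℤ) (hx : ∀ n : ℤ, n < -1 → x.coeff n = 0)
    (hx1 : x.coeff (-1) = 1) (hg : ∀ n : ℤ, n < c → g.coeff n = 0) (hg1 : g.coeff c = 1)
    (Q : Polynomial ℤ) (m : ℤ) (H : ∀ n : ℤ, n ≤ c → m ∣ (aeval x Q * g).coeff n) (i : ℕ) :
    m ∣ Q.coeff i := by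
  have key : ∀ t i : ℕ, Q.natDegree < i + t → m ∣ Q.coeff i := by
    intro t
    induction t with
    | zero =>
      intro i hi
      rw [coeff_eq_zero_of_natDegree_lt (by omega)]
      exact dvd_zero _
    | succ t ih =>
      intro i hi
      by_cases h : Q.natDegree < i + t
      · exact ih i h
      · have h1 := H (c - i) (by omega)
        rw [TRI_coeff, ← Finset.add_sum_erase _ _ (Finset.mem_range.2 (show i < Q.natDegree + 1 by omega)),
          (TRI_pow_low x g c hx hx1 hg hg1 i).2, mul_one] at h1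
        refine (dvd_add_left ?_).1 h1
        apply Finset.dvd_sum
        intro j hj
        rw [Finset.mem_erase, Finset.mem_range] at hj
        rcases lt_or_gt_of_ne hj.1 with h2 | h2
        · rw [(TRI_pow_low x g c hx hx1 hg hg1 j).1 (c - i) (by omega), mul_zero]
          exact dvd_zero _
        · exact Dvd.dvd.mul_right (ih j (by omega)) _
  exact key (Q.natDegree + 1) i (by omega)

theorem m_TRI : T_TRI := by
  intro x h hx hx1 hh hh1 Q
  refine ⟨?_, ?_, ?_⟩
  · intro m H i
    refine TRI_dvd x 1 0 hx hx1 ?_ ?_ Q m ?_ i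
    · intro n hn
      rw [HahnSeries.coeff_one, if_neg (by omega)]
    · rw [HahnSeries.coeff_one, if_pos rfl]
    · intro n hn
      rw [mul_one]
      exact H n hn
  · intro m H i
    exact TRI_dvd x h (-1) hx hx1 hh hh1 Q m (fun n hn => H n (by omega)) i
  · intro hQ
    constructor
    · intro n hn
      rw [TRI_coeff]
      apply Finset.sum_eq_zero
      intro j hj
      rw [Finset.mem_range] at hj
      rw [(TRI_pow_low x h (-1) hx hx1 hh hh1 j).1 n (by omega), mul_zero]
    · rw [TRI_coeff, Finset.sum_range_succ, Finset.sum_eq_zero]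
      · have h2 := (TRI_pow_low x h (-1) hx hx1 hh hh1 Q.natDegree).2
        rw [show (-1 : ℤ) - Q.natDegree = -(Q.natDegree + 1) by ring] at h2
        rw [h2, zero_add, mul_one]
        exact hQ
      · intro j hj
        rw [Finset.mem_range] at hj
        rw [(TRI_pow_low x h (-1) hx hx1 hh hh1 j).1 _ (by omega), mul_zero]

end Pool.Agent.H32.S36
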