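import Pool.Agent.H19.S36.IN3
import Pool.Agent.H19.S36.TRI

set_option autoImplicit false

open Complex Polynomial

namespace Pool.Agent.H32.S36

theorem IN1_w_unit (h3 : T_UNI) (x h : LaurentSeries ℤ) (F : FK x h) :
    ∃ wi : LaurentSeries ℤ, h * th x * wi = 1 := by
  have hlow : ∀ n : ℤ, n < -1 → (-th x).coeff n = 0 := by
    intro n hn
    rw [HahnSeries.coeff_neg, th_coeff, F.xlow n hn, mul_zero, neg_zero]
  have h1 : (-th x).coeff (-1) = 1 := by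
    rw [HahnSeries.coeff_neg, th_coeff, F.xm1]
    norm_num
  have hm := TRI_mul_low h (-th x) (-1) (-1) F.hlow hlow
  rw [F.hm1, h1] at hm
  obtain ⟨g, hg, -, -⟩ := h3 (h * -th x) (-1 + -1) hm.1 (by rw [hm.2, one_mul])
  exact ⟨-g, by rw [← hg]; ring⟩

theorem m_IN1 (_h1 : T_LAG) (h2 : T_FRB) (h3 : T_UNI) (h4 : T_TRI) : T_IN1 := by
  intro x h F p hp hp2 T T2 hT hT2 i
  refine (h4 x h F.xlow F.xm1 F.hlow F.hm1 _).1 ((p : ℤ) ^ 2) ?_ i
  intro n _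
  refine (dvd_iff _ _).1 ?_ n
  rw [IN3_psq]
  obtain ⟨al, hal⟩ := hT
  obtain ⟨be, hbe⟩ := hT2
  rw [IN3_psq] at hal hbe
  obtain ⟨f1, hf1⟩ := h2 p hp h
  obtain ⟨f2, hf2⟩ := h2 p hp (th h)
  rw [Int.cast_natCast] at hf1 hf2
  obtain ⟨wi, hwi⟩ := IN1_w_unit h3 x h F
  obtain ⟨hi, hhi, -, -⟩ := h3 h (-1) F.hlow F.hm1
  obtain ⟨xi, hxi, -, -⟩ := h3 x (-1) F.xlow F.xm1
  obtain ⟨m, hm⟩ : ∃ m, p = 2 * m + 1 := by
    rcases hp.eq_two_or_odd' with h | h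
    · exact absurd h hp2
    · exact h
  have hpm : (p - 1) / 2 = m := by omega
  have hth : ∀ T : Polynomial ℤ, aeval x (thP T) = x * aeval x (derivative T) := by
    intro T
    simp only [thP, map_mul, aeval_X]
  -- names
  obtain ⟨y, hy⟩ : ∃ y, y = aeval x T := ⟨_, rfl⟩
  obtain ⟨z, hz⟩ : ∃ z, z = aeval x T2 := ⟨_, rfl⟩
  obtain ⟨y', hy'⟩ : ∃ y', y' = aeval x (derivative T) := ⟨_, rfl⟩
  obtain ⟨z', hz'⟩ : ∃ z', z' = aeval x (derivative T2) := ⟨_, rfl⟩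
  have hy1 : th y = y' * th x := by rw [hy, hy', th_aeval]
  have hz1 : th z = z' * th x := by rw [hz, hz', th_aeval]
  rw [← hy] at hal
  rw [← hz] at hbe
  obtain ⟨P, hP⟩ : ∃ P, P = (p : LaurentSeries ℤ) := ⟨_, rfl⟩
  obtain ⟨V, hV⟩ : ∃ V, V = VV p hp.pos h := ⟨_, rfl⟩
  obtain ⟨V1, hV1⟩ : ∃ V1, V1 = VV p hp.pos (th h) := ⟨_, rfl⟩
  have hA : y * h = V + P ^ 2 * al := by
    rw [hP, hV, ← hal]; ring
  have hP2 : P ^ 2 = (((p : ℤ) ^ 2 : ℤ) : LaurentSeries ℤ) := by rw [hP, IN3_psq]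
  have hA1 : th (y * h) = P * V1 + P ^ 2 * th al := by
    rw [hA, th_add, hP2, th_intCast_mul, hV, th_VV, ← hV1, ← hP]
  rw [← hP] at hbe hf1 hf2
  rw [← hV] at hf1
  rw [← hV1] at hf2
  -- (A)
  have sA : (h * th x) * (z * (x * y') - y * (x * z')) =
      x * z * (P * V1 + P ^ 2 * th al) - x * y * (P ^ 2 * be) := by
    have e0 : h * ((h * th x) * (z * (x * y') - y * (x * z'))) =
        h * (x * z * th (y * h) - x * y * th (z * h)) := by
      rw [th_mul, th_mul, hy1, hz1]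
      ring
    have e1 : (hi * h) * ((h * th x) * (z * (x * y') - y * (x * z'))) =
        (hi * h) * (x * z * th (y * h) - x * y * th (z * h)) := by
      linear_combination hi * e0
    rw [mul_comm hi h, hhi, one_mul, one_mul, hA1, hbe] at e1
    exact e1
  -- (B)
  have hpow : h ^ p = h ^ (2 * m) * h := by rw [hm, pow_succ]
  obtain ⟨b, hb⟩ : ∃ b, y = h ^ (2 * m) + P * b := by
    refine ⟨(-f1 + P * al) * hi, ?_⟩
    have e0 : y * h = h ^ (2 * m) * h + P * (-f1 + P * al) := by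
      rw [← hpow]
      linear_combination hA - hf1
    linear_combination hi * e0 - (y - h ^ (2 * m)) * hhi
  have hB0 : th y = (P - 1) * (h ^ (2 * m - 1) * th h) + P * th b := by
    have hPth : th (P * b) = P * th b := by rw [hP, th_natCast_mul]
    rw [hb, th_add, hPth, th_pow]
    have e3 : ((2 * m : ℕ) : LaurentSeries ℤ) = P - 1 := by
      rw [hP, hm]; push_cast; ring
    rw [e3]
    ring
  obtain ⟨c, hc⟩ : ∃ c, x * y' * (h * th x) = -(x * y * th h) + P * c := by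
    have hm0 : 0 < m := by
      have := hp.two_le
      omega
    have e4 : h ^ (2 * m - 1) * h = h ^ (2 * m) := by
      rw [← pow_succ]
      congr 1
      omega
    refine ⟨x * y * th h + x * b * th h - P * x * b * th h + x * h * th b, ?_⟩
    have e5 : x * y' * (h * th x) = x * h * th y := by rw [hy1]; ring
    rw [e5, hB0]
    linear_combination (P - 1) * x * th h * e4 - (P - 1) * x * th h * hb
  -- (C)
  obtain ⟨d, hd⟩ : ∃ d, (x * y' * (h * th x)) ^ p = -(x ^ p * y ^ p * V1) + P * d := by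
    have e6 : P ∣ (x * y' * (h * th x)) ^ p - (-(x * y * th h)) ^ p := by
      refine dvd_trans ?_ (sub_dvd_pow_sub_pow _ _ p)
      rw [hc]
      exact ⟨c, by ring⟩
    obtain ⟨d1, hd1⟩ := e6
    have e7 : (-(x * y * th h)) ^ p = -(x ^ p * y ^ p * (th h) ^ p) := by
      rw [Odd.neg_pow ⟨m, hm⟩, mul_pow, mul_pow]
    refine ⟨d1 - x ^ p * y ^ p * f2, ?_⟩
    rw [e7] at hd1
    linear_combination hd1 - x ^ p * y ^ p * hf2
  -- (D)
  have hw2 : (h * th x) ^ (2 * m) = x ^ (2 * m) * (x ^ 2 - 12 * x - 64) ^ m := by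
    have := F.e1
    rw [pow_mul, this, pow_mul, ← mul_pow]
    congr 1
    ring
  have hwp : (h * th x) ^ p = x ^ (2 * m) * (x ^ 2 - 12 * x - 64) ^ m * (h * th x) := by
    rw [hm, pow_succ, hw2]
  have hxp : x ^ p = x ^ (2 * m) * x := by rw [hm, pow_succ]
  have hxip : x ^ p * xi ^ p = 1 := by rw [← mul_pow, hxi, one_pow]
  have goal1 : aeval x (T ^ p * (T2 * thP T - T * thP T2) +
      (p : Polynomial ℤ) * T2 * q2 ^ ((p - 1) / 2) * thP T ^ p) =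
      y ^ p * (z * (x * y') - y * (x * z')) +
        P * z * (x ^ 2 - 12 * x - 64) ^ m * (x * y') ^ p := by
    rw [hpm]
    simp only [map_add, map_sub, map_mul, map_pow, map_natCast, LAG_q2, hth, ← hy, ← hz, ← hy',
      ← hz', ← hP]
  rw [goal1]
  have e8 : (x * y' * (h * th x)) ^ p = (x * y') ^ p *
      (x ^ (2 * m) * (x ^ 2 - 12 * x - 64) ^ m * (h * th x)) := by
    rw [mul_pow (x * y') (h * th x), hwp]
  rw [e8] at hd
  obtain ⟨Q, hQ⟩ : ∃ Q, Q = (x ^ 2 - 12 * x - 64) ^ m := ⟨_, rfl⟩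
  obtain ⟨W, hW⟩ : ∃ W, W = z * (x * y') - y * (x * z') := ⟨_, rfl⟩
  obtain ⟨t, ht⟩ : ∃ t, t = (x * y') ^ p := ⟨_, rfl⟩
  obtain ⟨w, hw⟩ : ∃ w, w = h * th x := ⟨_, rfl⟩
  obtain ⟨Y, hY⟩ : ∃ Y, Y = y ^ p := ⟨_, rfl⟩
  obtain ⟨X1, hX1⟩ : ∃ X1, X1 = x ^ p := ⟨_, rfl⟩
  obtain ⟨X2, hX2⟩ : ∃ X2, X2 = x ^ (2 * m) := ⟨_, rfl⟩
  obtain ⟨Xi, hXi⟩ : ∃ Xi, Xi = xi ^ p := ⟨_, rfl⟩
  rw [← hX1, ← hXi] at hxip
  rw [← hX1, ← hX2] at hxp
  rw [← hW, ← hw] at sA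
  rw [← hQ, ← ht, ← hw, ← hY, ← hX1, ← hX2] at hd
  rw [← hQ, ← hW, ← ht, ← hY, ← hP]
  rw [← hw] at hwi
  have fin : w * X1 * (Y * W + P * z * Q * t) =
      P ^ 2 * (x * z * d + X1 * Y * (x * z * th al - x * y * be)) := by
    rw [hxp] at hd ⊢
    linear_combination X2 * x * Y * sA + P * x * z * hd
  refine ⟨(x * z * d + X1 * Y * (x * z * th al - x * y * be)) * wi * Xi, ?_⟩
  linear_combination (wi * Xi) * fin - (X1 * Xi * (Y * W + P * z * Q * t)) * hwi -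
    (Y * W + P * z * Q * t) * hxip

end Pool.Agent.H32.S36
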