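import Pool.Agent.H19.S36.LAG

set_option autoImplicit false

open Complex Polynomial

namespace Pool.Agent.H32.S36

theorem IN3_hne (x h : LaurentSeries ℤ) (F : FK x h) : h ≠ 0 := by
  intro h0
  have := F.hm1
  rw [h0] at this
  simp at this

theorem IN3_xne (x h : LaurentSeries ℤ) (F : FK x h) : th x ≠ 0 := by
  intro h0
  have h1 : (th x).coeff (-1) = -1 := by rw [th_coeff, F.xm1]; norm_num
  rw [h0] at h1
  simp at h1

theorem IN3_psq (p : ℕ) : ((((p : ℤ) ^ 2 : ℤ)) : LaurentSeries ℤ) = (p : LaurentSeries ℤ) ^ 2 := by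
  push_cast
  rfl

theorem m_IN3 (h1 : T_LAG) (_h2 : T_UNI) (h3 : T_TRI) : T_IN3 := by
  intro x h F p hp hp2 T hT i
  refine (h3 x h F.xlow F.xm1 F.hlow F.hm1 _).1 ((p : ℤ) ^ 2) ?_ i
  intro n _
  refine (dvd_iff _ _).1 ?_ n
  obtain ⟨al, hal⟩ := hT
  obtain ⟨-, hL2, -⟩ := h1 x h (IN3_hne x h F) (IN3_xne x h F) F.e1 F.e2 T
  obtain ⟨y, hy⟩ : ∃ y, y = aeval x T := ⟨_, rfl⟩
  rw [← hy] at hal hL2
  have hA : y * h = VV p hp.pos h + (((p : ℤ) ^ 2 : ℤ) : LaurentSeries ℤ) * al := by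
    rw [← hal]; ring
  have hA1 := congrArg th hA
  rw [th_add, th_intCast_mul, th_VV] at hA1
  have hA2 := congrArg th hA1
  rw [th_add, th_intCast_mul, th_natCast_mul, th_VV] at hA2
  rw [IN3_psq] at hA hA1 hA2
  have hth : aeval x (thP T) = x * aeval x (derivative T) := by
    simp only [thP, map_mul, aeval_X]
  have hy1 : th y = aeval x (derivative T) * th x := by rw [hy, th_aeval]
  have hsq : (h * th y) ^ 2 = (x ^ 2 - 12 * x - 64) * aeval x (thP T) ^ 2 := by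
    rw [hy1, hth]
    have := F.e1
    linear_combination (aeval x (derivative T)) ^ 2 * this
  have key : aeval x ((X - 2) ^ 2 * T ^ 2 + 2 * T * LA T - q2 * thP T ^ 2) =
      2 * (y * h) * th (th (y * h)) - (th (y * h)) ^ 2 := by
    simp only [map_add, map_sub, map_mul, map_pow, aeval_X, LAG_2, LAG_q2, ← hy]
    rw [← hL2]
    simp only [th_mul, th_add]
    have e2 := F.e2
    linear_combination hsq - y ^ 2 * e2
  rw [key, hA2, hA1, hA, IN3_psq]
  obtain ⟨P, hP⟩ : ∃ P, P = (p : LaurentSeries ℤ) := ⟨_, rfl⟩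
  rw [← hP]
  refine ⟨2 * (VV p hp.pos h + P ^ 2 * al) * (VV p hp.pos (th (th h)) + th (th al)) -
    (VV p hp.pos (th h) + P * th al) ^ 2, ?_⟩
  ring

end Pool.Agent.H32.S36
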