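import Pool.Agent.H32.S36.Targets

set_option autoImplicit false

open Complex Polynomial

namespace Pool.Agent.H32.S36

theorem LAG_th_ofNat (n : ℕ) [n.AtLeastTwo] : th (OfNat.ofNat n : LaurentSeries ℤ) = 0 := by
  rw [← Nat.cast_ofNat, th_natCast]

theorem LAG_two (a : LaurentSeries ℤ) (h : (2 : LaurentSeries ℤ) * a = 0) : a = 0 := by
  ext n
  have h1 : ((2 : LaurentSeries ℤ) * a).coeff n = (0 : LaurentSeries ℤ).coeff n := by rw [h]
  have h2 := intCast_mul_coeff (R := ℤ) 2 a n
  push_cast at h2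
  rw [h2] at h1
  simp only [HahnSeries.coeff_zero] at h1 ⊢
  omega

/-- `h D(h Dx)` as a polynomial of `x`. -/
theorem LAG_hDw (x h : LaurentSeries ℤ) (hh : h ≠ 0) (hx : th x ≠ 0)
    (e1 : (h * th x) ^ 2 = x ^ 2 * ((x - 16) * (x + 4))) :
    h * th (h * th x) = x * (x ^ 2 - 12 * x - 64) + x ^ 2 * (x - 6) := by
  obtain ⟨w, hw⟩ : ∃ w, w = h * th x := ⟨_, rfl⟩
  have hw0 : w ≠ 0 := by rw [hw]; exact mul_ne_zero hh hx
  rw [← hw] at e1 ⊢
  have d := congrArg th e1
  rw [th_pow, th_mul, th_mul, th_pow, th_sub, th_add, LAG_th_ofNat 16, LAG_th_ofNat 4] at d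
  simp only [Nat.add_one_sub_one, pow_one, Nat.cast_ofNat, sub_zero, add_zero] at d
  have d2 : 2 * (w * (h * th w - (x * (x ^ 2 - 12 * x - 64) + x ^ 2 * (x - 6)))) = 0 := by
    rw [hw] at d ⊢
    linear_combination h * d
  have d3 := LAG_two _ d2
  rcases mul_eq_zero.1 d3 with h1 | h1
  · exact absurd h1 hw0
  · exact sub_eq_zero.1 h1

theorem LAG_12 (x : LaurentSeries ℤ) : aeval x (12 : Polynomial ℤ) = 12 := map_ofNat (aeval x) 12
theorem LAG_64 (x : LaurentSeries ℤ) : aeval x (64 : Polynomial ℤ) = 64 := map_ofNat (aeval x) 64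
theorem LAG_6 (x : LaurentSeries ℤ) : aeval x (6 : Polynomial ℤ) = 6 := map_ofNat (aeval x) 6
theorem LAG_2 (x : LaurentSeries ℤ) : aeval x (2 : Polynomial ℤ) = 2 := map_ofNat (aeval x) 2

theorem LAG_q2 (x : LaurentSeries ℤ) : aeval x q2 = x ^ 2 - 12 * x - 64 := by
  simp only [q2, map_sub, map_mul, map_pow, aeval_X, LAG_12, LAG_64]

theorem LAG_LA (x : LaurentSeries ℤ) (P : Polynomial ℤ) :
    aeval x (LA P) = (x * (x ^ 2 - 12 * x - 64) + x ^ 2 * (x - 6)) * aeval x (derivative P) +
      x ^ 2 * (x ^ 2 - 12 * x - 64) * aeval x (derivative (derivative P)) := by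
  simp only [LA, map_add, map_mul, map_sub, map_pow, aeval_X, LAG_q2, LAG_6]

theorem LAG_LL (x : LaurentSeries ℤ) (P : Polynomial ℤ) :
    aeval x (LL P) = x * (aeval x (derivative (LA P)) + (x - 2) ^ 2 * aeval x (derivative P) +
      (x - 2) * aeval x P) := by
  simp only [LL, map_add, map_mul, map_sub, map_pow, aeval_X, LAG_2]

theorem m_LAG : T_LAG := by
  intro x h hh hx e1 e2 P
  have hD := LAG_hDw x h hh hx e1
  have c2 : h * th (h * th (aeval x P)) = aeval x (LA P) := by
    rw [LAG_LA, th_aeval]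
    have e : h * th (h * (aeval x (derivative P) * th x)) =
        (h * th (h * th x)) * aeval x (derivative P) +
          (h * th x) ^ 2 * aeval x (derivative (derivative P)) := by
      rw [show h * (aeval x (derivative P) * th x) = aeval x (derivative P) * (h * th x) by ring,
        th_mul (aeval x (derivative P)), th_aeval]
      ring
    rw [e, hD, e1]
    ring
  refine ⟨?_, c2, ?_⟩
  · rw [th_aeval]; ring
  · obtain ⟨y, hy⟩ : ∃ y, y = aeval x P := ⟨_, rfl⟩
    rw [LAG_LL]
    have d1 := congrArg th c2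
    rw [th_aeval x (LA P)] at d1
    have d0 : th y = aeval x (derivative P) * th x := by rw [hy, th_aeval]
    rw [← hy] at d1 ⊢
    have d2 := congrArg th e2
    simp only [th_sub, th_mul, th_pow, LAG_th_ofNat 2, Nat.add_one_sub_one, pow_one,
      Nat.cast_ofNat, zero_mul, zero_add, sub_zero] at d2
    simp only [th_mul, th_add] at d1 ⊢
    have d3 : h * th (th (th h)) = (x - 2) * th x := by
      apply sub_eq_zero.1
      apply LAG_two
      linear_combination d2
    linear_combination x * d1 + x * (x - 2) ^ 2 * d0 + x * y * d3 + x * th y * e2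

end Pool.Agent.H32.S36
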